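import Pool.Agent.H15.IX.TC

/-!
# Row EXT of idx_modules: extension of a valuation ring with residue field `k`
-/

set_option autoImplicit false

open Finset Pool.Agent.H15.IX

namespace Pool.Agent.H51.IX

universe u

theorem pf_EXT : T_EXT.{u} := by
  intro k E Ω _ _ _ _ _ _ _ _ _ O hRs
  obtain ⟨B, hB, hloc⟩ := (O.toLocalSubring.map (algebraMap E Ω)).exists_le_valuationSubring
  have hinj : Function.Injective (algebraMap E Ω) := (algebraMap E Ω).injective
  have F1 : ∀ x ∈ O, algebraMap E Ω x ∈ B := by
    intro x hx
    exact hB ⟨x, hx, rfl⟩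
  have F2 : ∀ x, O.valuation x < 1 → B.valuation (algebraMap E Ω x) < 1 := by
    intro x hx
    have hxO : x ∈ O := (O.valuation_le_one_iff x).1 hx.le
    by_contra hge
    have h1 : B.valuation (algebraMap E Ω x) = 1 :=
      le_antisymm ((B.valuation_le_one_iff _).2 (F1 x hxO)) (not_lt.1 hge)
    have hmem : algebraMap E Ω x ∈ (O.toLocalSubring.map (algebraMap E Ω)).toSubring :=
      ⟨x, hxO, rfl⟩
    have h2 : IsUnit (⟨algebraMap E Ω x, F1 x hxO⟩ : B) :=
      (B.valuation_eq_one_iff _).2 h1
    have h3 : IsUnit (⟨algebraMap E Ω x, hmem⟩ :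
        (O.toLocalSubring.map (algebraMap E Ω)).toSubring) :=
      hloc.map_nonunit _ h2
    obtain ⟨b, hb⟩ := h3.exists_right_inv
    obtain ⟨y, hy, hyb⟩ := b.2
    have h4 : algebraMap E Ω x * algebraMap E Ω y = 1 := by
      rw [hyb]
      exact congrArg Subtype.val hb
    have h5 : x * y = 1 := by
      apply hinj
      rw [map_mul, map_one]
      exact h4
    have h6 : O.valuation x * O.valuation y = 1 := by rw [← map_mul, h5, map_one]
    have h7 : O.valuation y ≤ 1 := (O.valuation_le_one_iff y).2 hy
    have h8 : O.valuation x * O.valuation y < 1 := by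
      calc O.valuation x * O.valuation y ≤ O.valuation x * 1 := mul_le_mul_right h7 _
        _ = O.valuation x := mul_one _
        _ < 1 := hx
    exact absurd h6 h8.ne
  refine ⟨B, ?_, ?_, ?_⟩
  · ext x
    rw [ValuationSubring.mem_comap]
    refine ⟨fun hx => ?_, fun hx => F1 x hx⟩
    by_contra hn
    have h1 : 1 < O.valuation x := by
      by_contra h
      exact hn ((O.valuation_le_one_iff x).1 (not_lt.1 h))
    have hx0 : x ≠ 0 := by
      rintro rfl
      rw [map_zero] at h1
      exact absurd h1 (not_lt.2 zero_le_one)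
    have h2 : O.valuation x⁻¹ < 1 := by
      rw [map_inv₀]
      exact inv_lt_one_of_one_lt₀ h1
    have h3 := F2 _ h2
    have h4 : B.valuation (algebraMap E Ω x) ≤ 1 := (B.valuation_le_one_iff _).2 hx
    have h5 : B.valuation (algebraMap E Ω x) * B.valuation (algebraMap E Ω x⁻¹) = 1 := by
      rw [← map_mul, ← map_mul, mul_inv_cancel₀ hx0, map_one, map_one]
    have h6 : B.valuation (algebraMap E Ω x) * B.valuation (algebraMap E Ω x⁻¹) < 1 := by
      calc B.valuation (algebraMap E Ω x) * B.valuation (algebraMap E Ω x⁻¹) ≤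
            1 * B.valuation (algebraMap E Ω x⁻¹) := mul_le_mul_left h4 _
        _ = B.valuation (algebraMap E Ω x⁻¹) := one_mul _
        _ < 1 := h3
    exact absurd h5 h6.ne
  · intro c
    rw [IsScalarTower.algebraMap_apply k E Ω]
    exact F1 _ (hRs.1 c)
  · intro x hx
    have hxv : B.valuation x ≤ 1 := (B.valuation_le_one_iff _).2 hx
    have hkB : ∀ c : k, algebraMap k Ω c ∈ B := by
      intro c
      rw [IsScalarTower.algebraMap_apply k E Ω]
      exact F1 _ (hRs.1 c)
    obtain ⟨p, hp0, hp⟩ := Algebra.IsAlgebraic.isAlgebraic (R := E) x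
    have hne : p.support.Nonempty := Polynomial.support_nonempty.2 hp0
    obtain ⟨j, hj, hjmax⟩ := Finset.exists_max_image p.support
      (fun i => O.valuation (p.coeff i)) hne
    have haj : p.coeff j ≠ 0 := Polynomial.mem_support_iff.1 hj
    have hvj : O.valuation (p.coeff j) ≠ 0 := (Valuation.ne_zero_iff _).2 haj
    have hbO : ∀ i, p.coeff i / p.coeff j ∈ O := by
      intro i
      rw [← O.valuation_le_one_iff, map_div₀]
      by_cases hi : i ∈ p.support
      · exact div_le_one_of_le₀ (hjmax i hi) zero_le
      · rw [Polynomial.notMem_support_iff.1 hi, map_zero, zero_div]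
        exact zero_le_one
    choose c hc using fun i => hRs.2 _ (hbO i)
    have hcj : c j ≠ 0 := by
      intro h
      have h1 := hc j
      rw [h, map_zero, sub_zero, div_self haj, map_one] at h1
      exact absurd h1 (lt_irrefl _)
    set g : Polynomial k := ∑ i ∈ Finset.range (p.natDegree + 1),
      Polynomial.C (c i) * Polynomial.X ^ i with hg
    have hjn : j < p.natDegree + 1 :=
      Nat.lt_succ_of_le (Polynomial.le_natDegree_of_mem_supp j hj)
    have hgj : g.coeff j = c j := by
      rw [hg, Polynomial.finsetSum_coeff]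
      rw [Finset.sum_eq_single j]
      · rw [Polynomial.coeff_C_mul, Polynomial.coeff_X_pow, if_pos rfl, mul_one]
      · intro i _ hi
        rw [Polynomial.coeff_C_mul, Polynomial.coeff_X_pow, if_neg (Ne.symm hi), mul_zero]
      · intro h
        exact absurd (Finset.mem_range.2 hjn) h
    have hg0 : g ≠ 0 := by
      intro h
      rw [h, Polynomial.coeff_zero] at hgj
      exact hcj hgj.symm
    -- the value at x
    have hsum : ∑ i ∈ Finset.range (p.natDegree + 1),
        algebraMap E Ω (p.coeff i / p.coeff j) * x ^ i = 0 := by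
      have h1 : Polynomial.aeval x p = ∑ i ∈ Finset.range (p.natDegree + 1),
          algebraMap E Ω (p.coeff i) * x ^ i := by
        rw [Polynomial.aeval_eq_sum_range]
        exact Finset.sum_congr rfl fun i _ => by rw [Algebra.smul_def]
      rw [hp] at h1
      have h2 : ∑ i ∈ Finset.range (p.natDegree + 1),
          algebraMap E Ω (p.coeff i / p.coeff j) * x ^ i =
          (algebraMap E Ω (p.coeff j))⁻¹ * ∑ i ∈ Finset.range (p.natDegree + 1),
          algebraMap E Ω (p.coeff i) * x ^ i := by
        rw [Finset.mul_sum]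
        refine Finset.sum_congr rfl fun i _ => ?_
        rw [map_div₀]
        ring
      rw [h2, ← h1, mul_zero]
    have hgx : Polynomial.aeval x g = - ∑ i ∈ Finset.range (p.natDegree + 1),
        algebraMap E Ω (p.coeff i / p.coeff j - algebraMap k E (c i)) * x ^ i := by
      have h1 : Polynomial.aeval x g = ∑ i ∈ Finset.range (p.natDegree + 1),
          algebraMap k Ω (c i) * x ^ i := by
        rw [hg, map_sum]
        refine Finset.sum_congr rfl fun i _ => ?_
        rw [map_mul, Polynomial.aeval_C, map_pow, Polynomial.aeval_X]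
      rw [h1, eq_neg_iff_add_eq_zero, ← Finset.sum_add_distrib, ← hsum]
      refine Finset.sum_congr rfl fun i _ => ?_
      rw [map_sub, ← IsScalarTower.algebraMap_apply k E Ω]
      ring
    have hgv : B.valuation (Polynomial.aeval x g) < 1 := by
      rw [hgx, Valuation.map_neg]
      refine Valuation.map_sum_lt _ one_ne_zero fun i _ => ?_
      rw [map_mul, map_pow]
      have h1 := F2 _ (hc i)
      calc B.valuation (algebraMap E Ω (p.coeff i / p.coeff j - algebraMap k E (c i))) *
            B.valuation x ^ i ≤
            B.valuation (algebraMap E Ω (p.coeff i / p.coeff j - algebraMap k E (c i))) * 1 :=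
            mul_le_mul_right (pow_le_one₀ zero_le hxv) _
        _ = B.valuation (algebraMap E Ω (p.coeff i / p.coeff j - algebraMap k E (c i))) :=
            mul_one _
        _ < 1 := h1
    by_contra hno
    have hall : ∀ r : k, B.valuation (x - algebraMap k Ω r) = 1 := by
      intro r
      refine le_antisymm ((B.valuation_le_one_iff _).2 (B.sub_mem hx (hkB r)))
        (not_lt.1 fun h => hno ⟨r, h⟩)
    have hlc : B.valuation (algebraMap k Ω g.leadingCoeff) = 1 := by
      have h1 : g.leadingCoeff ≠ 0 := Polynomial.leadingCoeff_ne_zero.2 hg0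
      have h2 : B.valuation (algebraMap k Ω g.leadingCoeff) ≤ 1 :=
        (B.valuation_le_one_iff _).2 (hkB _)
      have h3 : B.valuation (algebraMap k Ω g.leadingCoeff⁻¹) ≤ 1 :=
        (B.valuation_le_one_iff _).2 (hkB _)
      have h4 : B.valuation (algebraMap k Ω g.leadingCoeff) *
          B.valuation (algebraMap k Ω g.leadingCoeff⁻¹) = 1 := by
        rw [← map_mul, ← map_mul, mul_inv_cancel₀ h1, map_one, map_one]
      refine le_antisymm h2 ?_
      calc (1 : B.ValueGroup) = B.valuation (algebraMap k Ω g.leadingCoeff) *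
          B.valuation (algebraMap k Ω g.leadingCoeff⁻¹) := h4.symm
        _ ≤ B.valuation (algebraMap k Ω g.leadingCoeff) * 1 := mul_le_mul_right h3 _
        _ = _ := mul_one _
    have hsp : Polynomial.aeval x g = algebraMap k Ω g.leadingCoeff *
        (Multiset.map (fun r => x - algebraMap k Ω r) g.roots).prod := by
      conv_lhs => rw [(IsAlgClosed.splits g).eq_prod_roots]
      rw [map_mul, Polynomial.aeval_C, map_multiset_prod, Multiset.map_map]
      congr 3
      funext r
      simp
    rw [hsp, map_mul, hlc, one_mul, map_multiset_prod, Multiset.map_map] at hgv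
    have h9 : (Multiset.map (⇑B.valuation ∘ fun r => x - algebraMap k Ω r) g.roots).prod = 1 := by
      refine Multiset.prod_eq_one fun y hy => ?_
      obtain ⟨r, -, rfl⟩ := Multiset.mem_map.1 hy
      exact hall r
    rw [h9] at hgv
    exact absurd hgv (lt_irrefl _)

end Pool.Agent.H51.IX
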